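import Mathlib

/-! Coefficient extraction over the field with four elements. -/

open Finset

namespace Pool.Agent.P.MP_c49aeb_co

/-- the field with four elements -/
abbrev F4 := QuadraticAlgebra (ZMod 2) 1 1

/-- its elements -/
def q : Fin 4 → F4 := ![⟨0, 0⟩, ⟨1, 0⟩, ⟨0, 1⟩, ⟨1, 1⟩]

/-- index of the difference -/
def ty : Fin 4 → Fin 4 → Fin 4 := ![![0, 1, 2, 3], ![1, 0, 3, 2], ![2, 3, 0, 1], ![3, 2, 1, 0]]

lemma q_ty : ∀ a b, q a - q b = q (ty a b) := by decide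

lemma ty_ne : ∀ a b, a ≠ b → ty a b ≠ 0 := by decide

lemma ty_self : ∀ a, q (ty a a) = 0 := by decide

lemma ty_bip : ∀ τ : Fin 4, τ ≠ 0 → ∃ β : Fin 4 → Bool, ∀ a b, a ≠ b → ty a b ≠ τ → β a ≠ β b := by
  decide

lemma perm_bip : ∀ σ : Equiv.Perm (Fin 4), σ ≠ 1 →
    ∃ β : Fin 4 → Bool, ∀ a b, σ a = a → σ b = b → a ≠ b → β a ≠ β b := by
  decide +kernel

lemma q_prod : q 1 * q 2 * q 3 = 1 := by decide

lemma pow_sum : ∀ k : Fin 3, ∑ j, q j ^ (k : ℕ) = 0 := by decide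

lemma pattern : ∀ n : Fin 4 → Fin 7, ∑ j, (n j : ℕ) = 6 →
    ∑ σ : Equiv.Perm (Fin 4), (∏ j, q (σ j) ^ (n j : ℕ) -
      if ∀ j, (n j : ℕ) = σ j then 1 else 0) = 0 := by
  decide +kernel

lemma free_sum {G X M : Type} [Group G] [Fintype G] [MulAction G X] [DecidableEq X]
    [AddCommMonoid M] (φ : X → M) (S : Finset X) (hcl : ∀ g : G, ∀ x ∈ S, g • x ∈ S)
    (hfree : ∀ g : G, ∀ x ∈ S, g • x = x → g = 1) (hφ : ∀ x ∈ S, ∑ g : G, φ (g • x) = 0) :
    ∑ x ∈ S, φ x = 0 := by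
  induction S using Finset.strongInduction with
  | H S ih =>
    rcases S.eq_empty_or_nonempty with rfl | ⟨x, hx⟩
    · simp
    let O : Finset X := univ.image fun g : G => g • x
    have hO : O ⊆ S := by
      intro y hy
      obtain ⟨g, _, rfl⟩ := mem_image.1 hy
      exact hcl g x hx
    have hxO : x ∈ O := mem_image.2 ⟨1, mem_univ _, one_smul _ _⟩
    rw [← Finset.sum_sdiff hO, ih (S \ O) (sdiff_ssubset hO ⟨x, hxO⟩), zero_add,
      Finset.sum_image, hφ x hx]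
    · intro g _ h _ hgh
      have : (h⁻¹ * g) • x = x := by
        simp only at hgh
        rw [mul_smul, hgh, inv_smul_smul]
      have := hfree _ x hx this
      rw [inv_mul_eq_one] at this
      exact this.symm
    · intro g y hy
      rw [mem_sdiff] at hy ⊢
      refine ⟨hcl g y hy.1, fun h => hy.2 ?_⟩
      obtain ⟨g', _, hg'⟩ := mem_image.1 h
      exact mem_image.2 ⟨g⁻¹ * g', mem_univ _, by rw [mul_smul, hg', inv_smul_smul]⟩
    · intro g y hy
      exact hfree g y (mem_sdiff.1 hy).1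
    · intro y hy
      exact hφ y (mem_sdiff.1 hy).1

end Pool.Agent.P.MP_c49aeb_co
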