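import Pool.Agent.P.MP_da739a_co.Topo

/-! Edge bound for bipartite plane graphs, from the abstract dual. -/

open Finset

namespace Pool.Agent.P.MP_c49aeb_co

open Pool.Agent.P.MP_da739a_co

variable {V E : Type} [Fintype V] [Fintype E] [DecidableEq V]

omit [Fintype V] in
lemma other_edge (s t : E → V) (hst : ∀ e, s e ≠ t e) (z : E → ℤ)
    (hz : ∀ v, bdry s t z v = 0) (e : E) (he : z e ≠ 0) (v : V) (hv : s e = v ∨ t e = v) :
    ∃ e', e' ≠ e ∧ z e' ≠ 0 ∧ (s e' = v ∨ t e' = v) := by
  by_contra! h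
  have h1 := hz v
  unfold bdry at h1
  rw [Finset.sum_eq_single e] at h1
  · have := hst e
    rcases hv with hv | hv
    · have h2 : t e ≠ v := fun h2 => this (hv.trans h2.symm)
      simp [hv, h2] at h1
      exact he h1
    · have h2 : s e ≠ v := fun h2 => this (h2.trans hv.symm)
      simp [hv, h2] at h1
      exact he h1
  · intro e' _ hne
    by_cases h2 : z e' = 0
    · simp [h2]
    · have := h e' hne h2
      simp [this.1, this.2]
  · simp

omit [Fintype V] in
lemma four_le (s t : E → V) (b : V → Bool) (hb : ∀ e, b (s e) ≠ b (t e))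
    (hsimple : ∀ e e', (s e = s e' ∧ t e = t e') ∨ (s e = t e' ∧ t e = s e') → e = e')
    (z : E → ℤ) (hz : ∀ v, bdry s t z v = 0) (hne : z ≠ 0) :
    4 ≤ #{e | z e ≠ 0} := by
  classical
  have hst : ∀ e, s e ≠ t e := fun e h => hb e (by rw [h])
  obtain ⟨e, he⟩ : ∃ e, z e ≠ 0 := by
    by_contra! h
    exact hne (funext h)
  obtain ⟨e1, n1, z1, i1⟩ := other_edge s t hst z hz e he (s e) (Or.inl rfl)
  obtain ⟨e2, n2, z2, i2⟩ := other_edge s t hst z hz e he (t e) (Or.inr rfl)
  obtain ⟨u, hu, hbu, hu'⟩ : ∃ u, (s e1 = u ∨ t e1 = u) ∧ b u ≠ b (s e) ∧ u ≠ t e := by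
    rcases i1 with h | h
    · refine ⟨t e1, Or.inr rfl, by rw [← h]; exact (hb e1).symm, fun h' => n1 ?_⟩
      exact hsimple _ _ (Or.inl ⟨h, h'⟩)
    · refine ⟨s e1, Or.inl rfl, by rw [← h]; exact hb e1, fun h' => n1 ?_⟩
      exact hsimple _ _ (Or.inr ⟨h', h⟩)
  obtain ⟨e3, n3, z3, i3⟩ := other_edge s t hst z hz e1 z1 u hu
  have hbe := hb e
  have hbt : b u = b (t e) := by
    revert hbu hbe
    cases b u <;> cases b (s e) <;> cases b (t e) <;> simp
  have n12 : e1 ≠ e2 := by
    rintro rfl
    rcases i1 with h | h <;> rcases i2 with h' | h'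
    · exact hst e (h.symm.trans h')
    · exact n1 (hsimple _ _ (Or.inl ⟨h, h'⟩))
    · exact n1 (hsimple _ _ (Or.inr ⟨h', h⟩))
    · exact hst e (h.symm.trans h')
  have n3e : e3 ≠ e := by
    rintro rfl
    rcases i3 with h | h
    · exact hbu (by rw [h])
    · exact hu' h.symm
  have n32 : e3 ≠ e2 := by
    rintro rfl
    have := hb e3
    rcases i3 with h | h <;> rcases i2 with h' | h'
    · exact hu' (h.symm.trans h')
    · exact this (by rw [h, h', hbt])
    · exact this (by rw [h, h', hbt])
    · exact hu' (h.symm.trans h')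
  have hsub : ({e, e1, e2, e3} : Finset E) ⊆ univ.filter fun e => z e ≠ 0 := by
    intro x hx
    simp only [mem_insert, mem_singleton] at hx
    rcases hx with rfl | rfl | rfl | rfl <;> simpa
  refine le_trans (le_of_eq ?_) (card_le_card hsub)
  rw [card_insert_of_notMem, card_insert_of_notMem, card_pair n32.symm]
  · simp [n12, n3.symm]
  · simp [n1.symm, n2.symm, n3e.symm]

lemma sum_bdry (s t : E → V) (z : E → ℤ) : ∑ v, bdry s t z v = 0 := by
  unfold bdry
  rw [Finset.sum_comm]
  refine Finset.sum_eq_zero fun e _ => ?_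
  simp [Finset.sum_sub_distrib]

/-- boundary map with one vertex left out -/
def bmap (s t : E → V) (v0 : V) : (E → ℤ) →ₗ[ℤ] ({v // v ≠ v0} → ℤ) where
  toFun z v := bdry s t z v.1
  map_add' x y := by
    funext v
    simp only [bdry, Pi.add_apply, ← Finset.sum_add_distrib]
    refine Finset.sum_congr rfl fun e _ => ?_
    split_ifs <;> ring
  map_smul' c x := by
    funext v
    simp only [bdry, Pi.smul_apply, smul_eq_mul, RingHom.id_apply, Finset.mul_sum]
    refine Finset.sum_congr rfl fun e _ => ?_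
    split_ifs <;> ring

lemma ker_bmap (s t : E → V) (v0 : V) (z : E → ℤ) (hz : bmap s t v0 z = 0) (v : V) :
    bdry s t z v = 0 := by
  have h : ∀ v, v ≠ v0 → bdry s t z v = 0 := fun v hv => congrFun hz ⟨v, hv⟩
  by_cases hv : v = v0
  · have := sum_bdry s t z
    rw [Finset.sum_eq_single v0] at this
    · rwa [hv]
    · intro w _ hw
      exact h w hw
    · simp
  · exact h v hv

lemma card_le_rank (s t : E → V) (v0 : V) :
    Fintype.card E + 1 ≤ Fintype.card V + Module.finrank ℤ (LinearMap.ker (bmap s t v0)) := by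
  have h1 := (LinearMap.ker (bmap s t v0)).finrank_quotient_add_finrank
  rw [LinearEquiv.finrank_eq (bmap s t v0).quotKerEquivRange] at h1
  have h2 := (LinearMap.range (bmap s t v0)).finrank_le
  simp only [Module.finrank_fintype_fun_eq_card] at h1 h2
  have h3 : Fintype.card {v // v ≠ v0} + 1 = Fintype.card V := by
    have : Nonempty V := ⟨v0⟩
    have := Fintype.card_pos (α := V)
    simp only [ne_eq, Fintype.card_subtype_compl, Fintype.card_unique]
    omega
  omega

theorem bip_of_dual (s t : E → V) (b : V → Bool) (hb : ∀ e, b (s e) ≠ b (t e))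
    (hsimple : ∀ e e', (s e = s e' ∧ t e = t e') ∨ (s e = t e' ∧ t e = s e') → e = e')
    (hV : 3 ≤ Fintype.card V) {F : Type} (L R : E → F)
    (h1 : ∀ z : E → ℤ, (∀ v, bdry s t z v = 0) → ∃ w : F → ℤ, ∀ e, z e = w (L e) - w (R e))
    (h2 : ∀ (w : F → ℤ) v, bdry s t (fun e => w (L e) - w (R e)) v = 0) :
    Fintype.card E + 4 ≤ 2 * Fintype.card V := by
  classical
  obtain ⟨v0⟩ : Nonempty V := Fintype.card_pos_iff.1 (by omega)
  have hr := card_le_rank s t v0
  let δ : F → E → ℤ := fun f e => (if L e = f then 1 else 0) - (if R e = f then 1 else 0)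
  let T : Finset F := univ.image L ∪ univ.image R
  let F0 : Finset F := T.filter fun f => δ f ≠ 0
  have hδ : ∀ w : F → ℤ, (fun e => w (L e) - w (R e)) = ∑ f ∈ F0, w f • δ f := by
    intro w
    have : ∑ f ∈ F0, w f • δ f = ∑ f ∈ T, w f • δ f := by
      refine Finset.sum_subset (filter_subset _ _) fun f hf hf' => ?_
      have : δ f = 0 := by
        by_contra h
        exact hf' (mem_filter.2 ⟨hf, h⟩)
      simp [this]
    rw [this]
    funext e
    simp only [Finset.sum_apply, Pi.smul_apply, smul_eq_mul, δ, mul_sub, mul_ite, mul_one,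
      mul_zero, Finset.sum_sub_distrib, Finset.sum_ite_eq]
    simp [T]
  have h4 : 4 * #F0 ≤ 2 * Fintype.card E := by
    have a1 : ∀ f ∈ F0, 4 ≤ #{e | δ f e ≠ 0} := fun f hf =>
      four_le s t b hb hsimple (δ f) (fun v => h2 (fun g => if g = f then 1 else 0) v)
        (mem_filter.1 hf).2
    have a2 : ∑ f ∈ F0, #{e | δ f e ≠ 0} = ∑ e, #{f ∈ F0 | δ f e ≠ 0} := by
      simp only [card_filter]
      exact Finset.sum_comm
    have a3 : ∀ e, #{f ∈ F0 | δ f e ≠ 0} ≤ 2 := by
      intro e
      refine le_trans (card_le_card (t := {L e, R e}) fun f hf => ?_) card_le_two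
      have := (mem_filter.1 hf).2
      by_contra h
      simp only [mem_insert, mem_singleton, not_or] at h
      apply this
      simp [δ, Ne.symm h.1, Ne.symm h.2]
    calc 4 * #F0 = ∑ f ∈ F0, 4 := by simp [mul_comm]
      _ ≤ _ := Finset.sum_le_sum a1
      _ = _ := a2
      _ ≤ ∑ _e : E, 2 := Finset.sum_le_sum fun e _ => a3 e
      _ = _ := by simp [mul_comm]
  have key : ∀ (S : Finset F) (c : (F → ℤ) → ℤ), S ⊆ F0 →
      (∀ w : F → ℤ, ∀ f ∈ F0, f ∉ S → w f = c w) →
      Module.finrank ℤ (LinearMap.ker (bmap s t v0)) ≤ #S := by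
    intro S c hS hc
    have hle : LinearMap.ker (bmap s t v0) ≤ Submodule.span ℤ (S.image δ : Set (E → ℤ)) := by
      intro z hz
      obtain ⟨w, hw⟩ := h1 z (ker_bmap s t v0 z hz)
      have e1 : z = fun e => (w (L e) - c w) - (w (R e) - c w) := by
        funext e
        rw [hw]; ring
      rw [e1, hδ fun f => w f - c w]
      refine Submodule.sum_mem _ fun f hf => ?_
      by_cases hfS : f ∈ S
      · exact Submodule.smul_mem _ _ (Submodule.subset_span (by
          simp only [coe_image]; exact ⟨f, hfS, rfl⟩))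
      · simp [hc w f hf hfS]
    exact (Submodule.finrank_mono hle).trans
      ((finrank_span_finset_le_card _).trans card_image_le)
  rcases F0.eq_empty_or_nonempty with h | ⟨f0, hf0⟩
  · have := key ∅ (fun _ => 0) (empty_subset _) (by simp [h])
    simp only [card_empty] at this
    omega
  · have := key (F0.erase f0) (fun w => w f0) (erase_subset _ _) (by
      intro w f hf hf'
      have : f = f0 := by
        by_contra h
        exact hf' (mem_erase.2 ⟨h, hf⟩)
      rw [this])
    rw [card_erase_of_mem hf0] at this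
    have := card_pos.2 ⟨f0, hf0⟩
    omega

end Pool.Agent.P.MP_c49aeb_co
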