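import Mathlib

namespace Pool.Agent.P.MP_c49aeb_co.Paint

/-- parabolic arc between two points of the real line, above or below -/
noncomputable def arc (p q : ℝ) (c : Bool) (t : unitInterval) : ℂ :=
  ⟨p + t * (q - p), (if c then 1 else -1) * ((t * (q - p)) * (q - (p + t * (q - p))))⟩

lemma arc_cont (p q : ℝ) (c : Bool) : Continuous (arc p q c) := by
  have h : arc p q c = fun t : unitInterval => (((p + t * (q - p) : ℝ) : ℂ)) +
      (((if c then 1 else -1) * ((t * (q - p)) * (q - (p + t * (q - p)))) : ℝ) : ℂ) * Complex.I := by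
    funext t
    apply Complex.ext <;> simp [arc]
  rw [h]
  fun_prop

lemma arc_zero_im {p q : ℝ} (c : Bool) (t : unitInterval) (h : (arc p q c t).im = 0) :
    arc p q c t = (p : ℂ) ∨ arc p q c t = (q : ℂ) := by
  have h1 : ((t : ℝ) * (q - p)) * (q - (p + t * (q - p))) = 0 := by
    cases c <;> simpa [arc] using h
  rcases mul_eq_zero.1 h1 with h2 | h2
  · left
    apply Complex.ext
    · simp only [arc, Complex.ofReal_re]; linarith
    · rw [h]; simp
  · right
    apply Complex.ext
    · simp only [arc, Complex.ofReal_re]; linarith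
    · rw [h]; simp

lemma key_le {a b a' b' x : ℝ} (h1 : a' < x) (h2 : x < b') (h3 : a < a') (h4 : b' ≤ b) :
    (x - a') * (b' - x) < (x - a) * (b - x) := by
  have : (x - a') * (b' - x) < (x - a) * (b' - x) := by nlinarith
  have : (x - a) * (b' - x) ≤ (x - a) * (b - x) := by nlinarith
  linarith

lemma between {p q x : ℝ} (h : 0 < (x - p) * (q - x)) :
    min p q < x ∧ x < max p q ∧ (x - p) * (q - x) = (x - min p q) * (max p q - x) := by
  rcases le_total p q with hpq | hpq
  · rw [min_eq_left hpq, max_eq_right hpq]
    refine ⟨?_, ?_, rfl⟩ <;> by_contra hc <;> push Not at hc <;> nlinarith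
  · rw [min_eq_right hpq, max_eq_left hpq]
    refine ⟨?_, ?_, by ring⟩ <;> by_contra hc <;> push Not at hc <;> nlinarith

/-- a graph with a two-page book embedding has a plane drawing -/
theorem planar_of_book {V : Type} (G : SimpleGraph V) (pos : V → ℕ) (hpos : Function.Injective pos)
    (pg : V → V → Bool)
    (h : ∀ u v u' v', G.Adj u v → G.Adj u' v' → pg u v = pg u' v' →
      ¬ (min (pos u) (pos v) < min (pos u') (pos v') ∧ min (pos u') (pos v') < max (pos u) (pos v) ∧
        max (pos u) (pos v) < max (pos u') (pos v'))) :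
    ∃ (f : V → ℂ) (γ : V → V → unitInterval → ℂ),
        Function.Injective f ∧
        (∀ u v, G.Adj u v →
          Continuous (γ u v) ∧ Function.Injective (γ u v) ∧
          γ u v 0 = f u ∧ γ u v 1 = f v ∧
          ∀ (w : V) (t : unitInterval), γ u v t = f w → (w = u ∨ w = v)) ∧
        (∀ u v u' v', G.Adj u v → G.Adj u' v' →
          ¬ ((u = u' ∧ v = v') ∨ (u = v' ∧ v = u')) →
          ∀ s t : unitInterval, γ u v s = γ u' v' t → ∃ w : V, γ u v s = f w) := by
  have hinj : Function.Injective (fun v => (((pos v : ℕ) : ℝ) : ℂ)) := by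
    intro u v huv
    apply hpos
    simp only at huv
    exact_mod_cast huv
  refine ⟨fun v => (((pos v : ℕ) : ℝ) : ℂ), fun u v => arc (pos u) (pos v) (pg u v), hinj, ?_, ?_⟩
  · intro u v huv
    have hne : ((pos v : ℕ) : ℝ) - (pos u : ℝ) ≠ 0 := by
      intro h0
      have : (pos v : ℝ) = pos u := by linarith
      exact huv.ne (hpos (by exact_mod_cast this.symm))
    refine ⟨arc_cont _ _ _, ?_, ?_, ?_, ?_⟩
    · intro s t hst
      have := congrArg Complex.re hst
      simp only [arc] at this
      apply Subtype.ext
      have h2 : ((s : ℝ) - t) * ((pos v : ℝ) - pos u) = 0 := by linarith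
      rcases mul_eq_zero.1 h2 with h3 | h3
      · linarith
      · exact absurd h3 hne
    · apply Complex.ext <;> simp [arc]
    · apply Complex.ext <;> simp [arc]
    · intro w t ht
      simp only at ht
      have him : (arc (pos u) (pos v) (pg u v) t).im = 0 := by rw [ht]; simp
      rcases arc_zero_im _ _ him with h1 | h1
      · left; exact (hinj (h1.symm.trans ht)).symm
      · right; exact (hinj (h1.symm.trans ht)).symm
  · intro u v u' v' huv huv' hne s t hst
    by_cases him : (arc (pos u) (pos v) (pg u v) s).im = 0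
    · rcases arc_zero_im _ _ him with h1 | h1
      · exact ⟨u, h1⟩
      · exact ⟨v, h1⟩
    exfalso
    have hre := congrArg Complex.re hst
    have hi := congrArg Complex.im hst
    simp only [arc] at hre hi him
    set x : ℝ := (pos u : ℝ) + s * ((pos v : ℝ) - pos u) with hx
    have e1 : (s : ℝ) * ((pos v : ℝ) - pos u) = x - pos u := by rw [hx]; ring
    have e2 : (t : ℝ) * ((pos v' : ℝ) - pos u') = x - pos u' := by rw [hre]; ring
    rw [← hre, e1, e2] at hi
    rw [e1] at him
    have n1 : 0 ≤ (x - pos u) * (pos v - x) := by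
      have : (x - pos u) * (pos v - x) = s * (1 - s) * ((pos v : ℝ) - pos u) ^ 2 := by
        rw [hx]; ring
      rw [this]
      have := s.2.1; have := s.2.2
      have : (0 : ℝ) ≤ 1 - s := by linarith
      positivity
    have n2 : 0 ≤ (x - pos u') * (pos v' - x) := by
      have : (x - pos u') * (pos v' - x) = t * (1 - t) * ((pos v' : ℝ) - pos u') ^ 2 := by
        rw [hre]; ring
      rw [this]
      have := t.2.1; have := t.2.2
      have : (0 : ℝ) ≤ 1 - t := by linarith
      positivity
    have p1 : 0 < (x - pos u) * (pos v - x) := by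
      rcases n1.lt_or_eq with h1 | h1
      · exact h1
      · exact absurd (by rw [← h1]; simp) him
    have hpg : pg u v = pg u' v' ∧ (x - pos u) * (pos v - x) = (x - pos u') * (pos v' - x) := by
      cases h1 : pg u v <;> cases h2 : pg u' v' <;> simp only [h1, h2] at hi <;>
        simp only [Bool.false_eq_true, if_false, if_true] at hi
      · exact ⟨rfl, by linarith⟩
      · exfalso; linarith
      · exfalso; linarith
      · exact ⟨rfl, by linarith⟩
    obtain ⟨a1, a2, a3⟩ := between p1
    obtain ⟨b1, b2, b3⟩ := between (hpg.2 ▸ p1)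
    have c1 := h u v u' v' huv huv' hpg.1
    have c2 := h u' v' u v huv' huv hpg.1.symm
    simp only [← Nat.cast_min, ← Nat.cast_max] at a1 a2 a3 b1 b2 b3
    have hE := hpg.2
    rw [a3, b3] at hE
    set lo := min (pos u) (pos v) with hlo
    set hi' := max (pos u) (pos v) with hhi
    set lo2 := min (pos u') (pos v') with hlo2
    set hi2 := max (pos u') (pos v') with hhi2
    have d1 : lo2 < hi' := by exact_mod_cast b1.trans a2
    have d2 : lo < hi2 := by exact_mod_cast a1.trans b2
    rcases lt_trichotomy lo lo2 with h3 | h3 | h3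
    · have h4 : hi2 ≤ hi' := by omega
      have := key_le (a := lo) (b := hi') b1 b2 (by exact_mod_cast h3) (by exact_mod_cast h4)
      linarith
    · have h4 : (hi' : ℝ) = hi2 := by
        rw [← h3] at hE
        have : (0 : ℝ) < x - lo := by linarith
        have := mul_left_cancel₀ this.ne' hE
        linarith
      have h5 : hi' = hi2 := by exact_mod_cast h4
      apply hne
      have h6 : (pos u = pos u' ∧ pos v = pos v') ∨ (pos u = pos v' ∧ pos v = pos u') := by omega
      rcases h6 with h6 | h6
      · exact Or.inl ⟨hpos h6.1, hpos h6.2⟩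
      · exact Or.inr ⟨hpos h6.1, hpos h6.2⟩
    · have h4 : hi' ≤ hi2 := by omega
      have := key_le (a := lo2) (b := hi2) a1 a2 (by exact_mod_cast h3) (by exact_mod_cast h4)
      linarith

end Pool.Agent.P.MP_c49aeb_co.Paint
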