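import Pool.Agent.P.MP_c49aeb_co.EssData
import Pool.Agent.P.MP_c49aeb_co.PaintBook

namespace Pool.Agent.P.MP_c49aeb_co.Ess

open Pool.Agent.P.MP_c49aeb_co.Paint

/-- sixteen sectors of 71 vertices in a ring between two hubs -/
def GG : SimpleGraph (Fin 1138) := SimpleGraph.fromRel (fun u v => v.val ∈ nbr u.val)

lemma nbr_lt {u v : ℕ} (h : v ∈ nbr u) : u < 1136 := by
  by_contra hc
  simp [nbr, hc] at h

lemma nbr_spec {u v : ℕ} (h : v ∈ nbr u) : v < 1138 ∧ v ≠ u ∧ (1136 ≤ v ∨ u ∈ nbr v) := by
  have := List.all_eq_true.1 (List.all_eq_true.1 nbr_ok u (List.mem_range.2 (nbr_lt h))) v h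
  simp only [Bool.and_eq_true, decide_eq_true_eq, bne_iff_ne, Bool.or_eq_true,
    List.contains_iff_mem] at this
  exact ⟨this.1.1, this.1.2, this.2⟩

lemma adjB_iff {u v : ℕ} : adjB u v = true ↔ v ∈ nbr u ∨ u ∈ nbr v := by
  simp [adjB]

lemma adjB_symm (u v : ℕ) : adjB u v = adjB v u := by
  unfold adjB; exact Bool.or_comm _ _

lemma adjB_nbr {u v : ℕ} (hu : u < 1136) : adjB u v = true ↔ v ∈ nbr u := by
  rw [adjB_iff]
  refine ⟨fun h => h.elim id (fun h2 => ?_), Or.inl⟩
  exact (nbr_spec h2).2.2.resolve_left (by omega)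

lemma GG_adj {u v : Fin 1138} : GG.Adj u v ↔ adjB u.val v.val = true := by
  rw [adjB_iff, GG, SimpleGraph.fromRel_adj]
  refine ⟨fun h => h.2, fun h => ⟨?_, h⟩⟩
  rintro rfl
  rcases h with h | h <;> exact (nbr_spec h).2.1 rfl

lemma adjB_lt {u v : ℕ} (h : adjB u v = true) : u < 1138 ∧ v < 1138 := by
  rcases adjB_iff.1 h with h | h
  · exact ⟨(nbr_lt h).trans (by norm_num), (nbr_spec h).1⟩
  · exact ⟨(nbr_spec h).1, (nbr_lt h).trans (by norm_num)⟩

lemma nest_sound {t s p q p' q' : ℕ} (h : nest t s = true) (h1 : fits t s p q = true)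
    (h2 : fits t s p' q' = true) : ¬ (p < p' ∧ p' < q ∧ q < q') := by
  intro hc
  unfold nest at h
  unfold fits at h1 h2
  simp only [Bool.and_eq_true, List.all_eq_true, decide_eq_true_eq, List.mem_range] at h h1 h2
  have h3 := h p' h2.2 (q - p' - 1) (by omega)
  rw [show p' + 1 + (q - p' - 1) = q by omega] at h3
  omega

lemma fits_edge {u v : ℕ} (h : adjB u v = true) :
    fits tT sT (min (posN u) (posN v)) (max (posN u) (posN v)) = true ∨
    fits tF sF (min (posN u) (posN v)) (max (posN u) (posN v)) = true := by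
  have key : ∀ u v, v ∈ nbr u →
      fits tT sT (min (posN u) (posN v)) (max (posN u) (posN v)) = true ∨
      fits tF sF (min (posN u) (posN v)) (max (posN u) (posN v)) = true := by
    intro u v h
    have := List.all_eq_true.1 (List.all_eq_true.1 fits_ok u (List.mem_range.2 (nbr_lt h))) v h
    rwa [Bool.or_eq_true] at this
  rcases adjB_iff.1 h with h | h
  · exact key u v h
  · rw [min_comm, max_comm]; exact key v u h

theorem GG_planar : ∃ (f : Fin 1138 → ℂ) (γ : Fin 1138 → Fin 1138 → unitInterval → ℂ),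
        Function.Injective f ∧
        (∀ u v, GG.Adj u v →
          Continuous (γ u v) ∧ Function.Injective (γ u v) ∧
          γ u v 0 = f u ∧ γ u v 1 = f v ∧
          ∀ (w : Fin 1138) (t : unitInterval), γ u v t = f w → (w = u ∨ w = v)) ∧
        (∀ u v u' v', GG.Adj u v → GG.Adj u' v' →
          ¬ ((u = u' ∧ v = v') ∨ (u = v' ∧ v = u')) →
          ∀ s t : unitInterval, γ u v s = γ u' v' t → ∃ w : Fin 1138, γ u v s = f w) := by
  apply planar_of_book GG (fun u => posN u.val) _
    (fun u v => fits tT sT (min (posN u.val) (posN v.val)) (max (posN u.val) (posN v.val)))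
  · intro u v u' v' h h' hp
    have h1 := fits_edge (GG_adj.1 h)
    have h2 := fits_edge (GG_adj.1 h')
    cases hc : fits tT sT (min (posN u.val) (posN v.val)) (max (posN u.val) (posN v.val))
    · have hc' := hp ▸ hc
      rw [hc] at h1
      rw [hc'] at h2
      exact nest_sound nest_F (h1.resolve_left (by simp)) (h2.resolve_left (by simp))
    · exact nest_sound nest_T hc (hp ▸ hc)
  · intro u v h
    have hn := (nodupB_sound _ _ pos_ok).1
    exact Fin.ext (List.inj_on_of_nodup_map hn (List.mem_range.2 u.2) (List.mem_range.2 v.2) h)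

theorem GG_col : GG.Colorable 3 := by
  have hlt : ∀ u, col3 u < 3 := by
    intro u
    unfold col3
    split_ifs
    · exact Nat.mod_lt _ (by norm_num)
    · norm_num
  have key : ∀ u v, v ∈ nbr u → col3 u ≠ col3 v := by
    intro u v h
    have := List.all_eq_true.1 (List.all_eq_true.1 col3_ok u (List.mem_range.2 (nbr_lt h))) v h
    simpa using this
  refine ⟨SimpleGraph.Coloring.mk (fun u => ⟨col3 u.val, hlt _⟩) ?_⟩
  intro u v h hc
  have hc' : col3 u.val = col3 v.val := congrArg Fin.val hc
  rcases adjB_iff.1 (GG_adj.1 h) with h | h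
  · exact key _ _ h hc'
  · exact key _ _ h hc'.symm

lemma fansOk_sound (S : Finset ℕ) (hS : S.card ≤ 4) : ∀ (es : List (ℕ × ℕ)) (seen : ℕ),
      (∀ u, seen.testBit u = true → ∀ v, seen.testBit v = true → u ∉ S → v ∉ S → Rch adjB S u v) →
      fansOk es seen = true → ∀ u < 1138, ∀ v < 1138, low u = false → low v = false →
        u ∉ S → v ∉ S → Rch adjB S u v := by
  intro es
  induction es with
  | nil =>
    intro seen h1 h u hu v hv lu lv
    unfold fansOk at h
    have a1 := List.all_eq_true.1 h u (List.mem_range.2 hu)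
    have a2 := List.all_eq_true.1 h v (List.mem_range.2 hv)
    rw [lu, Bool.or_false] at a1
    rw [lv, Bool.or_false] at a2
    exact h1 u a1 v a2
  | cons e es ih =>
    intro seen h1 h
    unfold fansOk at h
    simp only [Bool.and_eq_true] at h
    apply ih _ _ h.2
    have key : ∀ v, seen.testBit v = true → e.1 ∉ S → v ∉ S → Rch adjB S e.1 v := by
      intro v hv he hvS
      obtain ⟨z, hz, hzS, hr⟩ := fanOk_sound adjB _ S hS _ _ h.1 he
      exact Relation.ReflTransGen.trans hr (h1 z hz v hv hzS hvS)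
    intro u hu v hv huS hvS
    rcases (testBit_add _ _ _).1 hu with rfl | hu <;> rcases (testBit_add _ _ _).1 hv with rfl | hv
    · exact Relation.ReflTransGen.refl
    · exact key v hv huS hvS
    · exact (key u hu hvS huS).symm' adjB_symm
    · exact h1 u hu v hv huS hvS

lemma pairsOk_sound (S : Finset ℕ) (hS : S.card ≤ 4) (base : List ℕ) (ps : List (ℕ × ℕ × ℕ))
    (h : pairsOk base ps = true) :
    ∀ u ∈ base, ∀ v ∈ base, u ∉ S → v ∉ S → Rch adjB S u v := by
  unfold pairsOk at h
  simp only [Bool.and_eq_true] at h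
  have key : ∀ e ∈ ps, e.1 ∉ S → e.2.1 ∉ S → Rch adjB S e.1 e.2.1 := by
    intro e he h1 h2
    obtain ⟨z, hz, hzS, hr⟩ := fanOk_sound adjB _ S hS _ _ (List.all_eq_true.1 h.1 e he) h1
    exact Relation.ReflTransGen.tail hr ⟨hz, hzS, h2⟩
  intro u hu v hv huS hvS
  have h2 := List.all_eq_true.1 (List.all_eq_true.1 h.2 u hu) v hv
  rcases Bool.or_eq_true _ _ ▸ h2 with h3 | h3
  · have : u = v := by simpa using h3
    subst this
    exact Relation.ReflTransGen.refl
  · obtain ⟨e, he, h4⟩ := List.any_eq_true.1 h3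
    simp only [Bool.or_eq_true, Bool.and_eq_true, beq_iff_eq] at h4
    rcases h4 with ⟨rfl, rfl⟩ | ⟨rfl, rfl⟩
    · exact key e he huS hvS
    · exact (key e he hvS huS).symm' adjB_symm

lemma high_rch (S : Finset ℕ) (hS : S.card ≤ 4) : ∀ u < 1138, ∀ v < 1138, low u = false →
    low v = false → u ∉ S → v ∉ S → Rch adjB S u v := by
  have hb := pairsOk_sound S hS _ _ pairs_ok
  refine fansOk_sound S hS fans _ ?_ fans_ok
  intro u hu v hv
  simp only [testBit_add, Nat.zero_testBit, Bool.false_eq_true, or_false] at hu hv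
  exact hb u (by simp; omega) v (by simp; omega)

lemma low_lt {w : ℕ} (h : low w = true) : w < 1136 := by
  by_contra hc
  simp [low, nbr, hc] at h

lemma low_spec {w : ℕ} (h : low w = true) : (nbr w).length = 4 ∧ (nbr w).Nodup ∧
    (∀ z ∈ nbr w, low z = false) ∧
    ∀ x, low x = true → x ≠ w → ∃ y ∈ nbr x, y ∉ nbr w := by
  have h1 := List.all_eq_true.1 low_ok w (List.mem_range.2 (low_lt h))
  rw [h] at h1
  simp only [Bool.not_true, Bool.false_or, Bool.and_eq_true, List.all_eq_true, decide_eq_true_eq,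
    Bool.or_eq_true, Bool.not_eq_true', beq_iff_eq, List.any_eq_true] at h1
  have hl : (nbr w).length = 4 := by simpa [low] using h
  have hnd := (nodupB_sound _ _ h1.1.1.1).1
  refine ⟨hl, hnd, h1.1.1.2, fun x hx hne => ?_⟩
  by_contra hc
  push Not at hc
  have hlx : (nbr x).length = 4 := by simpa [low] using hx
  have h1x := List.all_eq_true.1 low_ok x (List.mem_range.2 (low_lt hx))
  rw [hx] at h1x
  simp only [Bool.not_true, Bool.false_or, Bool.and_eq_true] at h1x
  have hndx := (nodupB_sound _ _ h1x.1.1.1).1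
  have hsub : (nbr x).toFinset = (nbr w).toFinset := by
    apply Finset.eq_of_subset_of_card_le
    · intro y hy
      exact List.mem_toFinset.2 (hc y (List.mem_toFinset.1 hy))
    · rw [List.toFinset_card_of_nodup hnd, List.toFinset_card_of_nodup hndx, hl, hlx]
  have hh : (nbr w).headD 0 ∈ nbr w := by
    cases hq : nbr w with
    | nil => rw [hq] at hl; simp at hl
    | cons a l => simp
  have hhx : (nbr w).headD 0 ∈ nbr x := List.mem_toFinset.1 (hsub ▸ List.mem_toFinset.2 hh)
  have hxin : x ∈ nbr ((nbr w).headD 0) := (nbr_spec hhx).2.2.resolve_left (by have := h1.1.2; omega)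
  rcases h1.2 x hxin with (h3 | h3) | ⟨y, hy, h3⟩
  · rw [hx] at h3; simp at h3
  · exact hne h3
  · have := hc y hy
    simp [this] at h3

lemma conn_of (T : Finset ℕ) (hT : T.card ≤ 5) (P : Set (Fin 1138)) (hP : ∀ v, v ∈ P ↔ v.val ∉ T)
    (h : ∀ u < 1138, ∀ v < 1138, u ∉ T → v ∉ T → Rch adjB T u v) : (GG.induce P).Connected := by
  have key : ∀ u v : ℕ, Rch adjB T u v → ∀ (a b : P), a.1.val = u → b.1.val = v →
        (GG.induce P).Reachable a b := by
    intro u v h
    induction h with
    | refl =>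
      intro a b ha hb
      have : a = b := Subtype.ext (Fin.ext (ha.trans hb.symm))
      rw [this]
    | @tail w z _ h2 ih =>
      intro a b ha hb
      have hw := (adjB_lt h2.1).1
      refine (ih a ⟨⟨w, hw⟩, (hP _).2 h2.2.1⟩ ha rfl).trans (SimpleGraph.Adj.reachable ?_)
      show GG.Adj ⟨w, hw⟩ b.1
      rw [GG_adj, hb]
      exact h2.1
  obtain ⟨v0, hv0, hv1⟩ := Finset.exists_mem_notMem_of_card_lt_card (s := T) (t := Finset.range 6)
    (by rw [Finset.card_range]; omega)
  have hv2 : v0 < 1138 := by have := Finset.mem_range.1 hv0; omega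
  have : Nonempty P := ⟨⟨⟨v0, hv2⟩, (hP _).2 hv1⟩⟩
  exact ⟨fun a b => key _ _ (h a.1 a.1.2 b.1 b.1.2 ((hP _).1 a.2) ((hP _).1 b.2)) a b rfl rfl⟩

lemma all_rch (S : Finset ℕ) (hS : S.card ≤ 4) {u v : ℕ} (hu : u < 1138) (hv : v < 1138)
    (huS : u ∉ S) (hvS : v ∉ S) (h1 : low u = true → ∃ z ∈ nbr u, z ∉ S)
    (h2 : low v = true → ∃ z ∈ nbr v, z ∉ S) : Rch adjB S u v := by
  have key : ∀ u < 1138, u ∉ S → (low u = true → ∃ z ∈ nbr u, z ∉ S) →
      ∃ z < 1138, low z = false ∧ z ∉ S ∧ Rch adjB S u z := by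
    intro u hu huS h1
    cases hl : low u
    · exact ⟨u, hu, hl, huS, Relation.ReflTransGen.refl⟩
    · obtain ⟨z, hz, hzS⟩ := h1 hl
      exact ⟨z, (nbr_spec hz).1, (low_spec hl).2.2.1 z hz, hzS,
        Relation.ReflTransGen.single ⟨adjB_iff.2 (Or.inl hz), huS, hzS⟩⟩
  obtain ⟨a, ha, la, aS, ra⟩ := key u hu huS h1
  obtain ⟨b, hb, lb, bS, rb⟩ := key v hv hvS h2
  exact (ra.trans (high_rch S hS a ha b hb la lb aS bS)).trans (rb.symm' adjB_symm)

theorem GG_conn (S : Finset (Fin 1138)) (hS : S.card ≤ 4) :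
    (GG.induce {v | v ∉ S}).Connected ∨
      (S.card = 4 ∧ ∃ w, GG.neighborSet w = ↑S ∧ (GG.induce {v | v ∉ S ∧ v ≠ w}).Connected) := by
  have hc : (S.image Fin.val).card = S.card := Finset.card_image_of_injective _ Fin.val_injective
  have hS' : (S.image Fin.val).card ≤ 4 := hc ▸ hS
  have hm : ∀ v : Fin 1138, v.val ∈ S.image Fin.val ↔ v ∈ S := by
    intro v
    simp [Fin.val_inj]
  by_cases hA : ∃ w, low w = true ∧ ∀ z ∈ nbr w, z ∈ S.image Fin.val
  · right
    obtain ⟨w, hw, hsub⟩ := hA
    obtain ⟨hl, hnd, -, hdist⟩ := low_spec hw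
    have hw1 := low_lt hw
    have heq : (nbr w).toFinset = S.image Fin.val := by
      apply Finset.eq_of_subset_of_card_le
      · intro y hy
        exact hsub y (List.mem_toFinset.1 hy)
      · rw [List.toFinset_card_of_nodup hnd, hl]; exact hS'
    have hmem : ∀ y, y ∈ S.image Fin.val ↔ y ∈ nbr w := by
      intro y; rw [← heq, List.mem_toFinset]
    refine ⟨?_, ⟨w, by omega⟩, ?_, ?_⟩
    · rw [← hc, ← heq, List.toFinset_card_of_nodup hnd, hl]
    · ext v
      rw [SimpleGraph.mem_neighborSet, GG_adj, adjB_nbr hw1, Finset.mem_coe, ← hm, hmem]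
    · apply conn_of (insert w (S.image Fin.val))
      · exact (Finset.card_insert_le _ _).trans (by omega)
      · intro v
        rw [Finset.mem_insert, hm, Set.mem_ofPred_eq, not_or, Ne, Fin.ext_iff]
        exact and_comm
      · intro u hu v hv huT hvT
        rw [Finset.mem_insert, not_or] at huT hvT
        have hx : ∀ x, x ≠ w → low x = true → ∃ z ∈ nbr x, z ∉ S.image Fin.val := by
          intro x hne hlx
          obtain ⟨y, hy, hy2⟩ := hdist x hlx hne
          exact ⟨y, hy, fun hh => hy2 ((hmem y).1 hh)⟩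
        have hr := all_rch _ hS' hu hv huT.2 hvT.2 (hx u huT.1) (hx v hvT.1)
        have step : ∀ z, Rch adjB (S.image Fin.val) u z →
            z ≠ w ∧ Rch adjB (insert w (S.image Fin.val)) u z := by
          intro z hz
          induction hz with
          | refl => exact ⟨huT.1, Relation.ReflTransGen.refl⟩
          | @tail x y _ h2 ih =>
            have hy : y ≠ w := by
              rintro rfl
              exact h2.2.1 ((hmem x).2 ((adjB_nbr hw1).1 (adjB_symm _ _ ▸ h2.1)))
            refine ⟨hy, Relation.ReflTransGen.tail ih.2 ⟨h2.1, ?_, ?_⟩⟩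
            · rw [Finset.mem_insert, not_or]; exact ⟨ih.1, h2.2.1⟩
            · rw [Finset.mem_insert, not_or]; exact ⟨hy, h2.2.2⟩
        exact (step v hr).2
  · left
    push Not at hA
    apply conn_of (S.image Fin.val) (by omega)
    · intro v
      rw [hm, Set.mem_ofPred_eq]
    · intro u hu v hv huS hvS
      exact all_rch _ hS' hu hv huS hvS (hA u) (hA v)

lemma look_code (g : ℕ → ℕ) : ∀ (F : List ℕ), (∀ u ∈ F, g u < 4) → ∀ u ∈ F,
    look F (code g F) u = g u := by
  intro F
  induction F with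
  | nil => intro _ u hu; simp at hu
  | cons w F ih =>
    intro h u hu
    have hw := h w List.mem_cons_self
    unfold look code
    split_ifs with h1
    · subst h1; omega
    · rw [show (g w + 4 * code g F) / 4 = code g F by omega]
      exact ih (fun x hx => h x (List.mem_cons_of_mem _ hx)) u
        ((List.mem_cons.1 hu).resolve_left (Ne.symm h1))

lemma code_lt (g : ℕ → ℕ) : ∀ (F : List ℕ), (∀ u ∈ F, g u < 4) → code g F < 4 ^ F.length := by
  intro F
  induction F with
  | nil => intro _; simp [code]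
  | cons w F ih =>
    intro h
    have hw := h w List.mem_cons_self
    have := ih (fun x hx => h x (List.mem_cons_of_mem _ hx))
    unfold code
    rw [List.length_cons, pow_succ]
    omega

lemma code_congr {g g' : ℕ → ℕ} : ∀ (F : List ℕ), (∀ u ∈ F, g u = g' u) → code g F = code g' F := by
  intro F
  induction F with
  | nil => intro _; rfl
  | cons w F ih =>
    intro h
    unfold code
    rw [h w List.mem_cons_self, ih (fun x hx => h x (List.mem_cons_of_mem _ hx))]

lemma run_sound (g : ℕ → ℕ) : ∀ (es : List Step) (F : List ℕ) (S : ℕ), run F S es = true →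
    (∀ e ∈ es, g e.1 < 4 ∧ g e.1 ≠ e.2.1 ∧ ∀ u ∈ e.2.2.1, g u ≠ g e.1) →
    (∀ u ∈ F, g u < 4) → S.testBit (code g F) = false := by
  intro es
  induction es with
  | nil =>
    intro F S h _ _
    unfold run at h
    rw [beq_iff_eq.1 h]
    exact Nat.zero_testBit _
  | cons e es ih =>
    intro F S h he hF
    unfold run stepOk at h
    simp only [Bool.and_eq_true, List.all_eq_true, Bool.or_eq_true, beq_iff_eq,
      List.contains_iff_mem, List.mem_range, Bool.not_eq_true', List.any_eq_true] at h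
    obtain ⟨⟨⟨h1, h2⟩, h3⟩, h4⟩ := h
    obtain ⟨e1, e2, e3⟩ := he e List.mem_cons_self
    have hF' : ∀ u ∈ e.2.2.2.1, g u < 4 := by
      intro u hu
      rcases h1 u hu with rfl | h
      · exact e1
      · exact hF u h
    have hi := ih _ _ h4 (fun x hx => he x (List.mem_cons_of_mem _ hx)) hF'
    rcases h3 _ (code_lt g F hF) with h5 | h5
    · exact h5
    · exfalso
      rcases h5 _ e1 with (h6 | ⟨u, hu, h6⟩) | h6
      · exact e2 h6
      · rw [look_code g F hF u (h2 u hu)] at h6
        exact e3 u hu h6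
      · rw [code_congr (g' := g)] at h6
        · rw [hi] at h6; simp at h6
        · intro u hu
          split_ifs with h7
          · rw [h7]
          · exact look_code g F hF u ((h1 u hu).resolve_left h7)

lemma sw_lt {c : ℕ} (h : c < 4) : sw c < 4 := by unfold sw; split_ifs <;> omega

lemma sw_inj {c d : ℕ} (h : sw c = sw d) : c = d := by
  unfold sw at h; split_ifs at h <;> omega

theorem GG_not : ¬ ∃ c : Fin 1138 → ℕ, (∀ v, c v ∈ (LL v.val).toFinset) ∧
    ∀ u v, GG.Adj u v → c u ≠ c v := by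
  rintro ⟨c, hL, hc⟩
  let cc : ℕ → ℕ := fun u => if h : u < 1138 then c ⟨u, h⟩ else 0
  have hcc : ∀ u v, v ∈ nbr u → cc u ≠ cc v := by
    intro u v h
    have hu : u < 1138 := (nbr_lt h).trans (by norm_num)
    have hv := (nbr_spec h).1
    simp only [cc, dif_pos hu, dif_pos hv]
    exact hc _ _ (GG_adj.2 (adjB_iff.2 (Or.inl h)))
  have hLL : ∀ u < 1138, cc u ∈ LL u := by
    intro u hu
    simp only [cc, dif_pos hu]
    exact List.mem_toFinset.1 (hL ⟨u, hu⟩)
  have ha : 4 ≤ cc 1136 ∧ cc 1136 < 8 := by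
    have := hLL 1136 (by norm_num)
    simp [LL] at this
    omega
  have hb : 4 ≤ cc 1137 ∧ cc 1137 < 8 := by
    have := hLL 1137 (by norm_num)
    simp [LL] at this
    omega
  obtain ⟨t, ht, hta, htb⟩ : ∃ t < 16, cc 1136 = 4 + t / 4 ∧ cc 1137 = 4 + t % 4 :=
    ⟨4 * (cc 1136 - 4) + (cc 1137 - 4), by omega, by omega, by omega⟩
  have hin : ∀ u, u / 71 = t → cc u < 4 ∧ cc u ≠ mis u := by
    intro u hu
    have hu1 : u < 1136 := by omega
    have h1 := hLL u (by omega)
    unfold LL at h1
    rw [if_pos hu1, List.mem_append, hu] at h1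
    rcases h1 with h1 | h1
    · rw [List.mem_filter] at h1
      refine ⟨?_, by simpa using h1.2⟩
      have := h1.1
      simp at this
      omega
    · exfalso
      split_ifs at h1 with h2 h3
      · refine hcc u 1136 ?_ (by rw [hta]; simpa using h1)
        unfold nbr
        rw [if_pos hu1, if_pos h2]
        simp
      · refine hcc u 1137 ?_ (by rw [htb]; simpa using h1)
        unfold nbr
        rw [if_pos hu1, if_neg h2, if_pos h3]
        simp
      · simp at h1
  have he := List.all_eq_true.1 emb_ok t (List.mem_range.2 ht)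
  have hn := List.all_eq_true.1 neck_ok t (List.mem_range.2 ht)
  simp only [Bool.and_eq_true, List.all_eq_true, decide_eq_true_eq, beq_iff_eq,
    List.contains_iff_mem] at he hn
  have hx := hin (71 * t + 34) (by omega)
  have hy := hin (71 * t + 35) (by omega)
  have hxy := hcc _ _ hn.2
  rw [hn.1.1] at hx
  rw [hn.1.2] at hy
  have hR := run_sound (fun k => cc (phR t k)) steps _ _ run_ok (by
    intro e hes
    obtain ⟨⟨⟨e1, e2⟩, -⟩, e4⟩ := he e hes
    have := hin (phR t e.1) (by unfold phR; omega)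
    exact ⟨this.1, e2 ▸ this.2, fun u hu => (hcc _ _ (e4 u hu).1).symm⟩) (by
    intro u hu
    exact (hin (phR t u) (by unfold phR; simp at hu; omega)).1)
  have hLf := run_sound (fun k => sw (cc (phL t k))) steps _ _ run_ok (by
    intro e hes
    obtain ⟨⟨⟨e1, -⟩, e3⟩, e4⟩ := he e hes
    have := hin (phL t e.1) (by unfold phL; split_ifs <;> omega)
    exact ⟨sw_lt this.1, fun hh => this.2 (sw_inj (hh.trans e3.symm)),
      fun u hu hh => hcc _ _ (e4 u hu).2 (sw_inj hh).symm⟩) (by
    intro u hu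
    exact sw_lt (hin (phL t u) (by unfold phL; simp at hu; split_ifs <;> omega)).1)
  simp only [code, phR, phL] at hR hLf
  norm_num at hR hLf
  generalize cc (71 * t + 34) = x at *
  generalize cc (71 * t + 35) = y at *
  obtain ⟨hx1, hx2⟩ := hx
  obtain ⟨hy1, hy2⟩ := hy
  interval_cases x <;> interval_cases y <;> revert hR hLf hxy hx2 hy2 <;> decide

theorem LL_card (v : Fin 1138) : (LL v.val).toFinset.card = 4 := by
  have := List.all_eq_true.1 LL_ok v (List.mem_range.2 v.2)
  simp only [Bool.and_eq_true, beq_iff_eq] at this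
  rw [List.toFinset_card_of_nodup (nodupB_sound _ _ this.1).1, this.2]

end Pool.Agent.P.MP_c49aeb_co.Ess
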