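import Mathlib

namespace Pool.Agent.P.MP_c49aeb_co.Paint

lemma avoid_of_nodup : ∀ (L : List (List ℕ)) (S : Finset ℕ), L.flatten.Nodup → S.card < L.length →
    ∃ l ∈ L, ∀ u ∈ l, u ∉ S := by
  intro L
  induction L with
  | nil => intro S _ h; simp at h
  | cons l L ih =>
    intro S hn hc
    by_cases h : ∀ u ∈ l, u ∉ S
    · exact ⟨l, List.mem_cons_self, h⟩
    push Not at h
    obtain ⟨u, hu, huS⟩ := h
    rw [List.flatten_cons, List.nodup_append] at hn
    obtain ⟨l', hl', h2⟩ := ih (S.erase u) hn.2.1 (by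
      rw [Finset.card_erase_of_mem huS]
      have := Finset.card_pos.2 ⟨u, huS⟩
      simp only [List.length_cons] at hc
      omega)
    refine ⟨l', List.mem_cons_of_mem _ hl', fun w hw hwS => h2 w hw (Finset.mem_erase.2 ⟨?_, hwS⟩)⟩
    rintro rfl
    exact hn.2.2 w hu w (List.mem_flatten.2 ⟨l', hl', hw⟩) rfl

/-- reachability avoiding `S` -/
def Rch (adj : ℕ → ℕ → Bool) (S : Finset ℕ) : ℕ → ℕ → Prop :=
  Relation.ReflTransGen (fun u v => adj u v = true ∧ u ∉ S ∧ v ∉ S)

def walkTo (adj : ℕ → ℕ → Bool) (ok : ℕ → Bool) : List ℕ → ℕ → Bool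
  | [], v => ok v
  | u :: P, v => adj v u && walkTo adj ok P u

lemma walkTo_sound (adj : ℕ → ℕ → Bool) (ok : ℕ → Bool) (S : Finset ℕ) :
    ∀ (P : List ℕ) (v : ℕ), walkTo adj ok P v = true → v ∉ S → (∀ u ∈ P, u ∉ S) →
      ∃ z, ok z = true ∧ z ∉ S ∧ Rch adj S v z := by
  intro P
  induction P with
  | nil => intro v h hv _; exact ⟨v, h, hv, Relation.ReflTransGen.refl⟩
  | cons u P ih =>
    intro v h hv hP
    unfold walkTo at h
    simp only [Bool.and_eq_true] at h
    have hu := hP u List.mem_cons_self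
    obtain ⟨z, h1, h2, h3⟩ := ih u h.2 hu (fun w hw => hP w (List.mem_cons_of_mem _ hw))
    exact ⟨z, h1, h2, Relation.ReflTransGen.head ⟨h.1, hv, hu⟩ h3⟩

lemma testBit_add (m u v : ℕ) : (m ||| 2 ^ u).testBit v = true ↔ v = u ∨ m.testBit v = true := by
  rw [Nat.testBit_or, Nat.testBit_two_pow]
  simp only [Bool.or_eq_true, decide_eq_true_eq]
  tauto

def nodupB : List ℕ → ℕ → Bool
  | [], _ => true
  | u :: l, m => !m.testBit u && nodupB l (m ||| 2 ^ u)

lemma nodupB_sound : ∀ (l : List ℕ) (m : ℕ), nodupB l m = true →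
    l.Nodup ∧ ∀ u ∈ l, ¬ m.testBit u = true := by
  intro l
  induction l with
  | nil => intro m _; simp
  | cons u l ih =>
    intro m h
    unfold nodupB at h
    simp only [Bool.and_eq_true] at h
    obtain ⟨h1, h2⟩ := ih _ h.2
    refine ⟨List.nodup_cons.2 ⟨fun hu => h2 u hu ((testBit_add _ _ _).2 (Or.inl rfl)), h1⟩, ?_⟩
    intro w hw
    rcases List.mem_cons.1 hw with rfl | hw
    · simpa using h.1
    · exact fun hm => h2 w hw ((testBit_add _ _ _).2 (Or.inr hm))

def fanOk (adj : ℕ → ℕ → Bool) (ok : ℕ → Bool) (v : ℕ) (Ps : List (List ℕ)) : Bool :=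
  decide (Ps.length = 5) && nodupB Ps.flatten 0 && Ps.all (fun P => walkTo adj ok P v)

lemma fanOk_sound (adj : ℕ → ℕ → Bool) (ok : ℕ → Bool) (S : Finset ℕ) (hS : S.card ≤ 4) (v : ℕ)
    (Ps : List (List ℕ)) (h : fanOk adj ok v Ps = true) (hv : v ∉ S) :
    ∃ z, ok z = true ∧ z ∉ S ∧ Rch adj S v z := by
  unfold fanOk at h
  simp only [Bool.and_eq_true, decide_eq_true_eq] at h
  obtain ⟨P, hP, h2⟩ := avoid_of_nodup Ps S (nodupB_sound _ _ h.1.2).1 (by omega)
  exact walkTo_sound adj ok S P v (List.all_eq_true.1 h.2 P hP) hv h2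

/-- read a list of paths from the base 1000 digits of a number -/
def dec : ℕ → ℕ → List ℕ → List (List ℕ)
  | 0, _, _ => []
  | k + 1, n, acc =>
    if n = 0 then [] else if n % 1000 = 999 then acc :: dec k (n / 1000) []
    else dec k (n / 1000) (n % 1000 :: acc)

def fansOk (adj : ℕ → ℕ → Bool) (n : ℕ) : List (ℕ × ℕ) → ℕ → Bool
  | [], seen => (List.range n).all (fun u => seen.testBit u)
  | e :: es, seen =>
    fanOk adj (fun z => seen.testBit z) e.1 (dec 400 e.2 []) && fansOk adj n es (seen ||| 2 ^ e.1)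

lemma Rch.symm' {adj : ℕ → ℕ → Bool} (hs : ∀ u v, adj u v = adj v u) {S : Finset ℕ} {u v : ℕ}
    (h : Rch adj S u v) : Rch adj S v u := by
  induction h with
  | refl => exact Relation.ReflTransGen.refl
  | tail _ h2 ih => exact Relation.ReflTransGen.head ⟨hs _ _ ▸ h2.1, h2.2.2, h2.2.1⟩ ih

lemma fansOk_sound (adj : ℕ → ℕ → Bool) (hs : ∀ u v, adj u v = adj v u) (n : ℕ) (S : Finset ℕ)
    (hS : S.card ≤ 4) : ∀ (es : List (ℕ × ℕ)) (seen : ℕ),
      (∀ u, seen.testBit u = true → ∀ v, seen.testBit v = true → u ∉ S → v ∉ S → Rch adj S u v) →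
      fansOk adj n es seen = true → ∀ u < n, ∀ v < n, u ∉ S → v ∉ S → Rch adj S u v := by
  intro es
  induction es with
  | nil =>
    intro seen h1 h u hu v hv
    unfold fansOk at h
    exact h1 u (List.all_eq_true.1 h u (List.mem_range.2 hu)) v
      (List.all_eq_true.1 h v (List.mem_range.2 hv))
  | cons e es ih =>
    intro seen h1 h
    unfold fansOk at h
    simp only [Bool.and_eq_true] at h
    apply ih _ _ h.2
    have key : ∀ v, seen.testBit v = true → e.1 ∉ S → v ∉ S → Rch adj S e.1 v := by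
      intro v hv he hvS
      obtain ⟨z, hz, hzS, hr⟩ := fanOk_sound adj _ S hS _ _ h.1 he
      exact Relation.ReflTransGen.trans hr (h1 z hz v hv hzS hvS)
    intro u hu v hv huS hvS
    rcases (testBit_add _ _ _).1 hu with rfl | hu <;> rcases (testBit_add _ _ _).1 hv with rfl | hv
    · exact Relation.ReflTransGen.refl
    · exact key v hv huS hvS
    · exact (key u hu hvS huS).symm' hs
    · exact h1 u hu v hv huS hvS

def pairsOk (adj : ℕ → ℕ → Bool) (base : List ℕ) (ps : List (ℕ × ℕ × ℕ)) : Bool :=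
  ps.all (fun e => fanOk adj (fun z => adj z e.2.1) e.1 (dec 400 e.2.2 [])) &&
  base.all (fun u => base.all (fun v => u == v ||
    ps.any (fun e => (e.1 == u && e.2.1 == v) || (e.1 == v && e.2.1 == u))))

lemma pairsOk_sound (adj : ℕ → ℕ → Bool) (hs : ∀ u v, adj u v = adj v u) (S : Finset ℕ)
    (hS : S.card ≤ 4) (base : List ℕ) (ps : List (ℕ × ℕ × ℕ)) (h : pairsOk adj base ps = true) :
    ∀ u ∈ base, ∀ v ∈ base, u ∉ S → v ∉ S → Rch adj S u v := by
  unfold pairsOk at h
  simp only [Bool.and_eq_true] at h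
  have key : ∀ e ∈ ps, e.1 ∉ S → e.2.1 ∉ S → Rch adj S e.1 e.2.1 := by
    intro e he h1 h2
    obtain ⟨z, hz, hzS, hr⟩ := fanOk_sound adj _ S hS _ _ (List.all_eq_true.1 h.1 e he) h1
    exact Relation.ReflTransGen.tail hr ⟨hz, hzS, h2⟩
  intro u hu v hv huS hvS
  have h2 := List.all_eq_true.1 (List.all_eq_true.1 h.2 u hu) v hv
  rcases Bool.or_eq_true _ _ ▸ h2 with h3 | h3
  · have : u = v := by simpa using h3
    subst this
    exact Relation.ReflTransGen.refl
  · obtain ⟨e, he, h4⟩ := List.any_eq_true.1 h3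
    simp only [Bool.or_eq_true, Bool.and_eq_true, beq_iff_eq] at h4
    rcases h4 with ⟨rfl, rfl⟩ | ⟨rfl, rfl⟩
    · exact key e he huS hvS
    · exact (key e he hvS huS).symm' hs

end Pool.Agent.P.MP_c49aeb_co.Paint
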