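import Mathlib

namespace Pool.Agent.P.MP_c49aeb_co.Paint

/-- Online list colouring (paintability, Schauz 2009, Zhu 2009).  `Paintable G S f`: Painter wins
the painting game on the still uncoloured vertices `S` of `G` when vertex `v` has `f v` tokens.
Either `S` is empty, or every vertex of `S` has a token and, for every nonempty set `M ⊆ S` marked
by Lister, Painter has an independent set `r M ⊆ M` to colour such that he wins on `S \ r M` after
every marked vertex has lost one token. -/
inductive Paintable {V : Type} [DecidableEq V] (G : SimpleGraph V) : Finset V → (V → ℕ) → Prop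
  | empty (f : V → ℕ) : Paintable G ∅ f
  | step (S : Finset V) (f : V → ℕ) (r : Finset V → Finset V) :
      (∀ v ∈ S, 1 ≤ f v) →
      (∀ M ⊆ S, M.Nonempty → r M ⊆ M ∧ ∀ u ∈ r M, ∀ v ∈ r M, ¬ G.Adj u v) →
      (∀ M ⊆ S, M.Nonempty →
        Paintable G (S \ r M) (fun v => if v ∈ M then f v - 1 else f v)) →
      Paintable G S f

end Pool.Agent.P.MP_c49aeb_co.Paint
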