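import Pool.Agent.P.MP_c49aeb_co.PaintDefs

namespace Pool.Agent.P.MP_c49aeb_co.Paint

variable {V : Type} [DecidableEq V] {G : SimpleGraph V}

/-- Lister wins whenever the vertices of `U` are uncoloured with at most `g` tokens -/
def Win (G : SimpleGraph V) (U : V → Prop) (g : V → ℕ) : Prop :=
  ∀ S f, (∀ v, U v → v ∈ S ∧ f v ≤ g v) → ¬ Paintable G S f

lemma not_paint_dead {S : Finset V} {f : V → ℕ} {v : V} (hv : v ∈ S) (hf : f v = 0) :
    ¬ Paintable G S f := by
  intro h
  cases h with
  | empty => simp at hv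
  | step _ _ r h1 _ _ => have := h1 v hv; omega

lemma not_paint_step {S : Finset V} {f : V → ℕ} (M : Finset V) (hM : M ⊆ S) (hne : M.Nonempty)
    (h : ∀ I ⊆ M, (∀ u ∈ I, ∀ v ∈ I, ¬ G.Adj u v) →
      ¬ Paintable G (S \ I) (fun v => if v ∈ M then f v - 1 else f v)) : ¬ Paintable G S f := by
  intro hp
  cases hp with
  | empty =>
    obtain ⟨v, hv⟩ := hne
    simpa using hM hv
  | step _ _ r _ h2 h3 => exact h _ (h2 M hM hne).1 (h2 M hM hne).2 (h3 M hM hne)

/-- the hub phase: Lister marks the hub together with one group of its neighbours at a time -/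
lemma Win.hub (a : V) (U : ℕ → V → Prop) (A : ℕ → Finset V) :
    ∀ (k : ℕ) (T : V → Prop) (g : V → ℕ), g a ≤ k → T a → (∀ i < k, ∀ v, U i v → T v ∧ v ≠ a) →
      (∀ i < k, ∀ v ∈ A i, G.Adj a v ∧ U i v) →
      (∀ i < k, ∀ j < k, i ≠ j → ∀ v ∈ A i, ¬ U j v) →
      (∀ i < k, Win G (U i) (fun v => if v ∈ A i then g v - 1 else g v)) → Win G T g := by
  intro k
  induction k with
  | zero =>
    intro T g hg hT _ _ _ _ S f hS
    have := hS a hT
    exact not_paint_dead this.1 (by omega)
  | succ k ih =>
    intro T g hg hT h1 h2 h3 h4 S f hS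
    apply not_paint_step (insert a (A k))
    · intro v hv
      rcases Finset.mem_insert.1 hv with rfl | hv
      · exact (hS _ hT).1
      · exact (hS _ (h1 k (by omega) v (h2 k (by omega) v hv).2).1).1
    · exact ⟨a, Finset.mem_insert_self _ _⟩
    intro I hI hind
    by_cases ha : a ∈ I
    · apply h4 k (by omega)
      intro v hv
      have hv1 := h1 k (by omega) v hv
      have hv2 := hS v hv1.1
      refine ⟨Finset.mem_sdiff.2 ⟨hv2.1, fun hvI => ?_⟩, ?_⟩
      · rcases Finset.mem_insert.1 (hI hvI) with h | h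
        · exact hv1.2 h
        · exact hind a ha v hvI (h2 k (by omega) v h).1
      · simp only [Finset.mem_insert, hv1.2, false_or]
        split_ifs <;> omega
    · apply ih (fun v => v = a ∨ ∃ i < k, U i v) (fun v => if v = a then g v - 1 else g v)
      · simp only [if_true]; omega
      · exact Or.inl rfl
      · intro i hi v hv
        exact ⟨Or.inr ⟨i, hi, hv⟩, (h1 i (by omega) v hv).2⟩
      · intro i hi
        exact h2 i (by omega)
      · intro i hi j hj
        exact h3 i (by omega) j (by omega)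
      · intro i hi S' f' hS'
        apply h4 i (by omega)
        intro v hv
        have := hS' v hv
        simpa only [(h1 i (by omega) v hv).2, if_false] using this
      · rintro v (rfl | ⟨i, hi, hv⟩)
        · have := hS v hT
          refine ⟨Finset.mem_sdiff.2 ⟨this.1, ha⟩, ?_⟩
          simp only [Finset.mem_insert, true_or, if_true]
          omega
        · have hv1 := h1 i (by omega) v hv
          have hv2 := hS v hv1.1
          have hv3 : v ∉ A k := fun h => h3 k (by omega) i (by omega) (by omega) v h hv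
          refine ⟨Finset.mem_sdiff.2 ⟨hv2.1, fun hvI => ?_⟩, ?_⟩
          · rcases Finset.mem_insert.1 (hI hvI) with h | h
            · exact hv1.2 h
            · exact hv3 h
          · simp only [Finset.mem_insert, hv1.2, hv3, or_self, if_false]
            exact hv2.2

/-- no set that is independent for `adj` and contains `I` meets all the lists -/
def noHit (adj : ℕ → ℕ → Bool) : List (List ℕ) → List ℕ → Bool
  | [], _ => false
  | T :: Ts, I =>
    if T.any (fun v => I.contains v) then noHit adj Ts I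
    else T.all (fun v => I.any (fun u => adj u v) || noHit adj Ts (v :: I))

lemma noHit_sound (adj : ℕ → ℕ → Bool) (J : ℕ → Prop)
    (hJ : ∀ u v, J u → J v → adj u v = false) :
    ∀ (Ts : List (List ℕ)) (I : List ℕ), (∀ u ∈ I, J u) → noHit adj Ts I = true →
      ∃ T ∈ Ts, ∀ v ∈ T, ¬ J v := by
  intro Ts
  induction Ts with
  | nil => intro I _ h; simp [noHit] at h
  | cons T Ts ih =>
    intro I hI h
    unfold noHit at h
    split_ifs at h with hc
    · obtain ⟨T', h1, h2⟩ := ih I hI h
      exact ⟨T', List.mem_cons_of_mem _ h1, h2⟩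
    · by_cases hT : ∀ v ∈ T, ¬ J v
      · exact ⟨T, List.mem_cons_self, hT⟩
      push Not at hT
      obtain ⟨v, hv, hJv⟩ := hT
      have h1 := List.all_eq_true.1 h v hv
      rcases Bool.or_eq_true _ _ ▸ h1 with h2 | h2
      · obtain ⟨u, hu, huv⟩ := List.any_eq_true.1 h2
        rw [hJ u v (hI u hu) hJv] at huv
        exact absurd huv (by simp)
      · obtain ⟨T', h3, h4⟩ := ih (v :: I) (by
          intro u hu
          rcases List.mem_cons.1 hu with rfl | hu
          · exact hJv
          · exact hI u hu) h2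
        exact ⟨T', List.mem_cons_of_mem _ h3, h4⟩

/-- digit `l` of a state: 0 = absent, `t + 1` = present with at most `t` tokens -/
def code (s l : ℕ) : ℕ := s / 10 ^ l % 10

def WS (G : SimpleGraph V) (φ : ℕ → V) (s : ℕ) : Prop :=
  ∀ S f, (∀ l < 32, code s l ≠ 0 → φ l ∈ S ∧ f (φ l) + 1 ≤ code s l) → ¬ Paintable G S f

def below (s : ℕ) (M : List ℕ) (c : ℕ) : Bool :=
  (List.range 32).all (fun l => code c l == 0 ||
    (code s l != 0 && decide (code s l ≤ code c l + (if M.contains l then 1 else 0))))

def chkE (adj : ℕ → ℕ → Bool) (s : ℕ) (M : List ℕ) (cs : List ℕ) : Bool :=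
  (List.range 32).any (fun l => code s l == 1) ||
  (!M.isEmpty && M.all (fun l => decide (l < 32) && code s l != 0) && cs.all (below s M) &&
    noHit adj (cs.map (fun c => M.filter (fun l => code c l != 0))) [])

lemma chkE_sound (adj : ℕ → ℕ → Bool) (φ : ℕ → V)
    (hφ : ∀ u < 32, ∀ v < 32, φ u = φ v → u = v)
    (hadj : ∀ u < 32, ∀ v < 32, adj u v = true → G.Adj (φ u) (φ v))
    (s : ℕ) (M cs : List ℕ) (hcs : ∀ c ∈ cs, WS G φ c) (h : chkE adj s M cs = true) :
    WS G φ s := by
  intro S f hS
  unfold chkE at h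
  rcases Bool.or_eq_true _ _ ▸ h with h | h
  · obtain ⟨l, hl, hc⟩ := List.any_eq_true.1 h
    have hc' : code s l = 1 := by simpa using hc
    have := hS l (List.mem_range.1 hl) (by omega)
    exact not_paint_dead this.1 (by omega)
  simp only [Bool.and_eq_true] at h
  obtain ⟨⟨⟨h1, h2⟩, h3⟩, h4⟩ := h
  have h2' : ∀ l ∈ M, l < 32 ∧ code s l ≠ 0 := by
    intro l hl
    simpa using List.all_eq_true.1 h2 l hl
  apply not_paint_step (M.map φ).toFinset
  · intro v hv
    obtain ⟨l, hl, rfl⟩ := List.mem_map.1 (List.mem_toFinset.1 hv)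
    exact (hS l (h2' l hl).1 (h2' l hl).2).1
  · cases M with
    | nil => simp at h1
    | cons l M => exact ⟨φ l, by simp⟩
  intro I hI hind
  obtain ⟨T, hT, hT2⟩ := noHit_sound (fun u v => adj u v) (fun l => l < 32 ∧ φ l ∈ I) (by
    intro u v hu hv
    by_contra hc
    exact hind _ hu.2 _ hv.2 (hadj u hu.1 v hv.1 (by simpa using hc))) _ [] (by simp) h4
  obtain ⟨c, hc, rfl⟩ := List.mem_map.1 hT
  apply hcs c hc
  intro l hl hcl
  have hb := List.all_eq_true.1 (List.all_eq_true.1 h3 c hc) l (List.mem_range.2 hl)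
  have hb' : code s l ≠ 0 ∧ code s l ≤ code c l + (if M.contains l then 1 else 0) := by
    simpa [hcl] using hb
  have hs := hS l hl hb'.1
  have hmem : φ l ∈ (M.map φ).toFinset ↔ l ∈ M := by
    constructor
    · intro hh
      obtain ⟨l', hl', e⟩ := List.mem_map.1 (List.mem_toFinset.1 hh)
      rw [← hφ l' (h2' l' hl').1 l hl e]
      exact hl'
    · intro hh
      exact List.mem_toFinset.2 (List.mem_map.2 ⟨l, hh, rfl⟩)
  refine ⟨Finset.mem_sdiff.2 ⟨hs.1, fun hI' => ?_⟩, ?_⟩
  · exact hT2 l (List.mem_filter.2 ⟨hmem.1 (hI hI'), by simpa using hcl⟩) ⟨hl, hI'⟩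
  · have hb2 := hb'.2
    by_cases hm : l ∈ M
    · rw [if_pos (hmem.2 hm)]
      rw [if_pos (by simpa using hm)] at hb2
      omega
    · rw [if_neg (fun hh => hm (hmem.1 hh))]
      rw [if_neg (by simpa using hm)] at hb2
      omega

/-- check a list of entries (state, marked set, states used); `seen` = states already won -/
def chkL (adj : ℕ → ℕ → Bool) : List (ℕ × List ℕ × List ℕ) → List ℕ → ℕ → Bool
  | [], seen, top => seen.contains top
  | e :: es, seen, top =>
    e.2.2.all (fun c => seen.contains c) && chkE adj e.1 e.2.1 e.2.2 && chkL adj es (e.1 :: seen) top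

lemma chkL_sound (adj : ℕ → ℕ → Bool) (φ : ℕ → V)
    (hφ : ∀ u < 32, ∀ v < 32, φ u = φ v → u = v)
    (hadj : ∀ u < 32, ∀ v < 32, adj u v = true → G.Adj (φ u) (φ v)) (top : ℕ) :
    ∀ (es : List (ℕ × List ℕ × List ℕ)) (seen : List ℕ), (∀ c ∈ seen, WS G φ c) →
      chkL adj es seen top = true → WS G φ top := by
  intro es
  induction es with
  | nil => intro seen hs h; exact hs top (by simpa [chkL] using h)
  | cons e es ih =>
    intro seen hs h
    unfold chkL at h
    simp only [Bool.and_eq_true] at h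
    apply ih (e.1 :: seen) _ h.2
    intro c hc
    rcases List.mem_cons.1 hc with rfl | hc
    · apply chkE_sound adj φ hφ hadj _ _ _ _ h.1.2
      intro c hc
      exact hs c (by simpa using List.all_eq_true.1 h.1.1 c hc)
    · exact hs c hc

end Pool.Agent.P.MP_c49aeb_co.Paint
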