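import Pool.Agent.P.MP_c49aeb_co.PaintData
import Pool.Agent.P.MP_c49aeb_co.PaintBook

namespace Pool.Agent.P.MP_c49aeb_co.Paint

/-- the cyclic chain of 96 Birkhoff diamonds between two hubs -/
def GG : SimpleGraph (Fin 578) := SimpleGraph.fromRel (fun u v => v.val ∈ outN u.val)

lemma out_spec {u v : ℕ} (h : v ∈ outN u) : u < 578 ∧ v < 578 ∧ v ≠ u := by
  have hu : u < 576 := by
    by_contra hc
    simp [outN, hc] at h
  have := List.all_eq_true.1 (List.all_eq_true.1 out_ok u (List.mem_range.2 (by omega))) v h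
  simp only [Bool.and_eq_true, decide_eq_true_eq, bne_iff_ne] at this
  exact ⟨by omega, this.1, this.2⟩

lemma adjB_iff {u v : ℕ} : adjB u v = true ↔ v ∈ outN u ∨ u ∈ outN v := by
  simp [adjB]

lemma adjB_symm (u v : ℕ) : adjB u v = adjB v u := by
  unfold adjB; exact Bool.or_comm _ _

lemma GG_adj {u v : Fin 578} : GG.Adj u v ↔ adjB u.val v.val = true := by
  rw [adjB_iff, GG, SimpleGraph.fromRel_adj]
  refine ⟨fun h => h.2, fun h => ⟨?_, h⟩⟩
  rintro rfl
  rcases h with h | h <;> exact (out_spec h).2.2 rfl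

lemma adjB_lt {u v : ℕ} (h : adjB u v = true) : u < 578 ∧ v < 578 := by
  rcases adjB_iff.1 h with h | h
  · exact ⟨(out_spec h).1, (out_spec h).2.1⟩
  · exact ⟨(out_spec h).2.1, (out_spec h).1⟩

def pgN (u v : ℕ) : Bool := if v ∈ outN u then pageN u v else pageN v u

lemma mem_edges {u v : Fin 578} (h : GG.Adj u v) :
    (min (posN u) (posN v), max (posN u) (posN v)) ∈ edgesN (pgN u v) := by
  unfold edgesN pgN
  split_ifs with h1
  · exact List.mem_flatMap.2 ⟨u, List.mem_range.2 u.2,
      List.mem_map.2 ⟨v, List.mem_filter.2 ⟨h1, by simp⟩, rfl⟩⟩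
  · have h2 := (adjB_iff.1 (GG_adj.1 h)).resolve_left h1
    exact List.mem_flatMap.2 ⟨v, List.mem_range.2 v.2,
      List.mem_map.2 ⟨u, List.mem_filter.2 ⟨h2, by simp⟩, by rw [min_comm, max_comm]⟩⟩

theorem GG_planar : ∃ (f : Fin 578 → ℂ) (γ : Fin 578 → Fin 578 → unitInterval → ℂ),
        Function.Injective f ∧
        (∀ u v, GG.Adj u v →
          Continuous (γ u v) ∧ Function.Injective (γ u v) ∧
          γ u v 0 = f u ∧ γ u v 1 = f v ∧
          ∀ (w : Fin 578) (t : unitInterval), γ u v t = f w → (w = u ∨ w = v)) ∧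
        (∀ u v u' v', GG.Adj u v → GG.Adj u' v' →
          ¬ ((u = u' ∧ v = v') ∨ (u = v' ∧ v = u')) →
          ∀ s t : unitInterval, γ u v s = γ u' v' t → ∃ w : Fin 578, γ u v s = f w) := by
  apply planar_of_book GG (fun u => posN u.val) _ (fun u v => pgN u.val v.val)
  · intro u v u' v' h h' hp
    have h1 := mem_edges h
    have h2 := mem_edges h'
    rw [← hp] at h2
    cases hc : pgN u v <;> rw [hc] at h1 h2
    · exact bookOk_sound book_false _ h1 _ h2
    · exact bookOk_sound book_true _ h1 _ h2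
  · intro u v h
    have h1 := List.all_eq_true.1 pos_ok u (List.mem_range.2 u.2)
    have h2 := List.all_eq_true.1 pos_ok v (List.mem_range.2 v.2)
    simp only [beq_iff_eq] at h1 h2
    simp only at h
    apply Fin.ext
    rw [← h1, ← h2, h]

theorem GG_conn (S : Finset (Fin 578)) (hS : S.card ≤ 4) :
    (GG.induce {v | v ∉ S}).Connected := by
  have hS' : (S.image Fin.val).card ≤ 4 := Finset.card_image_le.trans hS
  have hm : ∀ v : Fin 578, v.val ∈ S.image Fin.val ↔ v ∈ S := by
    intro v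
    simp [Fin.val_inj]
  have hb := pairsOk_sound adjB adjB_symm _ hS' _ _ pairs_ok
  have hall := fansOk_sound adjB adjB_symm 578 _ hS' fans _ (by
    intro u hu v hv
    simp only [testBit_add, Nat.zero_testBit, Bool.false_eq_true, or_false] at hu hv
    exact hb u (by simp; omega) v (by simp; omega)) fans_ok
  have key : ∀ u v : ℕ, Rch adjB (S.image Fin.val) u v →
      ∀ (a b : {v : Fin 578 // v ∈ {v | v ∉ S}}), a.1.val = u → b.1.val = v →
        (GG.induce {v | v ∉ S}).Reachable a b := by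
    intro u v h
    induction h with
    | refl =>
      intro a b ha hb
      have : a = b := Subtype.ext (Fin.ext (ha.trans hb.symm))
      rw [this]
    | @tail w z _ h2 ih =>
      intro a b ha hb
      have hw := (adjB_lt h2.1).1
      have hwS : (⟨w, hw⟩ : Fin 578) ∉ S := fun hh => h2.2.1 ((hm ⟨w, hw⟩).2 hh)
      refine (ih a ⟨⟨w, hw⟩, hwS⟩ ha rfl).trans (SimpleGraph.Adj.reachable ?_)
      show GG.Adj ⟨w, hw⟩ b.1
      rw [GG_adj, hb]
      exact h2.1
  have hne : ∃ v : Fin 578, v ∉ S := by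
    by_contra hc
    push Not at hc
    have : S = Finset.univ := Finset.eq_univ_iff_forall.2 hc
    rw [this] at hS
    simp at hS
  obtain ⟨v0, hv0⟩ := hne
  have : Nonempty {v : Fin 578 // v ∈ {v | v ∉ S}} := ⟨⟨v0, hv0⟩⟩
  refine ⟨fun a b => key _ _ (hall a.1 a.1.2 b.1 b.1.2 ?_ ?_) a b rfl rfl⟩
  · exact fun hh => a.2 ((hm _).1 hh)
  · exact fun hh => b.2 ((hm _).1 hh)

/-- sector `t`: five consecutive diamonds -/
def phi (t l : ℕ) : Fin 578 := ⟨(36 * t + l) % 578, Nat.mod_lt _ (by norm_num)⟩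

lemma adjL_ok : (List.range 16).all (fun t => (List.range 32).all (fun u => (List.range 32).all
    (fun v => !adjL u v || adjB (36 * t + u) (36 * t + v)))) = true := by decide +kernel

lemma top_ok : (List.range 32).all (fun l =>
    code top l == if l % 6 = 3 ∨ l % 6 = 4 then 5 else 4) = true := by decide +kernel

lemma sector {t : ℕ} (ht : t < 16) : WS GG (phi t) top := by
  apply chkL_sound adjL (phi t) _ _ top cert [] (by simp) cert_ok
  · intro u hu v hv h
    have := congrArg Fin.val h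
    simp only [phi] at this
    omega
  · intro u hu v hv h
    have := List.all_eq_true.1 (List.all_eq_true.1 (List.all_eq_true.1 adjL_ok t
      (List.mem_range.2 ht)) u (List.mem_range.2 hu)) v (List.mem_range.2 hv)
    rw [h] at this
    rw [GG_adj]
    simp only [phi]
    rw [Nat.mod_eq_of_lt (by omega), Nat.mod_eq_of_lt (by omega)]
    simpa using this

def AA (i : ℕ) : Finset (Fin 578) := Finset.univ.filter (fun v =>
  v.val < 576 ∧ v.val / 144 = i ∧ v.val % 36 < 32 ∧ (v.val % 6 = 0 ∨ v.val % 6 = 2))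

def BB (t : ℕ) : Finset (Fin 578) := Finset.univ.filter (fun v =>
  v.val < 576 ∧ v.val / 36 = t ∧ v.val % 36 < 32 ∧ (v.val % 6 = 1 ∨ v.val % 6 = 5))

lemma mem_AA {i : ℕ} {v : Fin 578} : v ∈ AA i ↔
    v.val < 576 ∧ v.val / 144 = i ∧ v.val % 36 < 32 ∧ (v.val % 6 = 0 ∨ v.val % 6 = 2) := by
  simp [AA]

lemma mem_BB {t : ℕ} {v : Fin 578} : v ∈ BB t ↔
    v.val < 576 ∧ v.val / 36 = t ∧ v.val % 36 < 32 ∧ (v.val % 6 = 1 ∨ v.val % 6 = 5) := by
  simp [BB]

lemma group_win {i : ℕ} (hi : i < 4) :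
    Win GG (fun v => v.val = 577 ∨ (v.val < 576 ∧ v.val / 144 = i ∧ v.val % 36 < 32))
      (fun v => if v ∈ AA i then 4 - 1 else 4) := by
  apply Win.hub (⟨577, by norm_num⟩ : Fin 578)
    (fun j v => v.val < 576 ∧ v.val / 36 = 4 * i + j ∧ v.val % 36 < 32) (fun j => BB (4 * i + j)) 4
  · split_ifs <;> omega
  · exact Or.inl rfl
  · intro j hj v hv
    refine ⟨Or.inr ⟨hv.1, by omega, hv.2.2⟩, ?_⟩
    rintro rfl
    simp at hv
  · intro j hj v hv
    rw [mem_BB] at hv
    refine ⟨?_, hv.1, hv.2.1, hv.2.2.1⟩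
    rw [GG_adj, adjB_iff]
    right
    have h1 : ¬ (v.val % 6 = 0 ∨ v.val % 6 = 2) := by omega
    simp only [outN, if_pos hv.1, if_neg h1, if_pos hv.2.2.2, List.mem_append, List.mem_singleton,
      or_true]
  · intro j hj k hk hjk v hv hv'
    rw [mem_BB] at hv
    omega
  · intro j hj S f hS
    apply sector (t := 4 * i + j) (by omega)
    intro l hl _
    have hv : (phi (4 * i + j) l).val = 36 * (4 * i + j) + l := by
      simp only [phi]; omega
    have h1 := hS (phi (4 * i + j) l) (by simp only [hv]; omega)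
    have h2 := List.all_eq_true.1 top_ok l (List.mem_range.2 hl)
    rw [beq_iff_eq] at h2
    refine ⟨h1.1, ?_⟩
    have h3 := h1.2
    simp only [mem_AA, mem_BB, hv] at h3
    rw [h2]
    split_ifs at h3 ⊢ <;> omega

theorem GG_not_paintable : ¬ Paintable GG Finset.univ (fun _ => 4) := by
  have h : Win GG (fun _ => True) (fun _ => 4) := by
    apply Win.hub (⟨576, by norm_num⟩ : Fin 578)
      (fun i v => v.val = 577 ∨ (v.val < 576 ∧ v.val / 144 = i ∧ v.val % 36 < 32)) AA 4
    · exact le_rfl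
    · trivial
    · intro i hi v hv
      refine ⟨trivial, ?_⟩
      rintro rfl
      simp at hv
    · intro i hi v hv
      rw [mem_AA] at hv
      refine ⟨?_, Or.inr ⟨hv.1, hv.2.1, hv.2.2.1⟩⟩
      rw [GG_adj, adjB_iff]
      right
      simp only [outN, if_pos hv.1, if_pos hv.2.2.2, List.mem_append, List.mem_singleton, or_true]
    · intro i hi j hj hij v hv hv'
      rw [mem_AA] at hv
      omega
    · intro i hi
      exact group_win hi
  exact h _ _ (fun v _ => ⟨Finset.mem_univ v, le_rfl⟩)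

end Pool.Agent.P.MP_c49aeb_co.Paint
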